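import Pool.Agent.WAP.StmtsC
import Pool.Agent.Helper32_WAP.Add

/-!
# WAP, part C, row CZA (helper1): addition in the coordinates z = X / Y, w = 1 / Y
-/

set_option autoImplicit false

namespace Pool.Agent.WAP.H1

open Pool.Agent.WAP Pool.Agent.WAP.C Pool.Agent.WAP.H32 Classical

section Core

variable {F : Type} [Field F]

theorem cza_core {d l m X1 X2 X3 Y1 Y2 Y3 : F} (hm : m ≠ 0) (hY1 : Y1 ≠ 0) (hY2 : Y2 ≠ 0)
    (h1 : Y1 = l * X1 + m) (h2 : Y2 = l * X2 + m) (h3 : Y3 = -(l * X3 + m))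
    (e1 : X1 + X2 + X3 = l ^ 2)
    (e2 : X1 * X2 + X1 * X3 + X2 * X3 = -d ^ 2 - 2 * l * m) (e3 : X1 * X2 * X3 = m ^ 2)
    (hN : m ^ 2 - d ^ 2 * l ^ 2 ≠ 0) :
    Y3 ≠ 0 ∧ X3 / Y3 = X1 / Y1 + X2 / Y2 + 2 * d ^ 2 * l / (m ^ 2 - d ^ 2 * l ^ 2) := by
  have hprod : Y1 * Y2 * Y3 = -(m * (m ^ 2 - d ^ 2 * l ^ 2)) := by
    rw [h1, h2, h3]
    linear_combination -(l ^ 3) * e3 - l ^ 2 * m * e2 - l * m ^ 2 * e1
  have hsum : X3 * Y1 * Y2 - (X1 * Y2 + X2 * Y1) * Y3 = -2 * l * m * d ^ 2 := by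
    rw [h1, h2, h3]
    linear_combination 3 * l ^ 2 * e3 + 2 * l * m * e2 + m ^ 2 * e1
  have hY3 : Y3 ≠ 0 := by
    intro h0
    rw [h0, mul_zero] at hprod
    exact mul_ne_zero hm hN (by linear_combination hprod)
  refine ⟨hY3, ?_⟩
  rw [div_add_div _ _ hY1 hY2, div_add_div _ _ (mul_ne_zero hY1 hY2) hN,
    div_eq_div_iff hY3 (mul_ne_zero (mul_ne_zero hY1 hY2) hN)]
  linear_combination (m ^ 2 - d ^ 2 * l ^ 2) * hsum - 2 * d ^ 2 * l * hprod

theorem cza_w {d X Y : F} (hY : Y ≠ 0) (e : Y ^ 2 = X ^ 3 - d ^ 2 * X) :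
    1 / Y = (X / Y) ^ 3 - d ^ 2 * (X / Y) * (1 / Y) ^ 2 := by
  field_simp
  linear_combination e

theorem cza_alg {d X1 X2 X3 Y1 Y2 Y3 α β l : F} (hY1 : Y1 ≠ 0) (hY2 : Y2 ≠ 0)
    (e1 : Y1 ^ 2 = X1 ^ 3 - d ^ 2 * X1)
    (hβ0 : β ≠ 0) (L1 : α * X1 + β * Y1 = 1) (L2 : α * X2 + β * Y2 = 1)
    (hN : 1 - d ^ 2 * α ^ 2 ≠ 0) (hl : l = -α / β)
    (hR : l ^ 2 * (X1 + X2) + 2 * l * (1 / β) = X1 ^ 2 + X1 * X2 + X2 ^ 2 - d ^ 2)
    (hX3 : X3 = l ^ 2 - X1 - X2) (hY3 : Y3 = -(l * (X3 - X1) + Y1)) :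
    Y3 ≠ 0 ∧ X3 / Y3 = X1 / Y1 + X2 / Y2 - 2 * d ^ 2 * α * β / (1 - d ^ 2 * α ^ 2) ∧
      1 / Y3 = α * (X3 / Y3) - β := by
  obtain ⟨m, hm⟩ : ∃ m : F, m = 1 / β := ⟨_, rfl⟩
  have hm0 : m ≠ 0 := by
    rw [hm]
    exact one_div_ne_zero hβ0
  have hmb : m * β = 1 := by
    rw [hm]
    exact one_div_mul_cancel hβ0
  have hlb : l * β = -α := by
    rw [hl]
    exact div_mul_cancel₀ _ hβ0
  rw [← hm] at hR
  have h1 : Y1 = l * X1 + m := by
    apply mul_right_cancel₀ hβ0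
    linear_combination L1 - X1 * hlb - hmb
  have h2 : Y2 = l * X2 + m := by
    apply mul_right_cancel₀ hβ0
    linear_combination L2 - X2 * hlb - hmb
  have h3 : Y3 = -(l * X3 + m) := by
    rw [hY3, h1]
    ring
  have hα : α * m = -l := by
    linear_combination m * hlb - l * hmb
  have hN' : m ^ 2 - d ^ 2 * l ^ 2 = m ^ 2 * (1 - d ^ 2 * α ^ 2) := by
    have : l ^ 2 = (α * m) ^ 2 := by rw [hα]; ring
    rw [this]
    ring
  have hN0 : m ^ 2 - d ^ 2 * l ^ 2 ≠ 0 := by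
    rw [hN']
    exact mul_ne_zero (pow_ne_zero 2 hm0) hN
  have E1 : X1 + X2 + X3 = l ^ 2 := by
    rw [hX3]
    ring
  have E2 : X1 * X2 + X1 * X3 + X2 * X3 = -d ^ 2 - 2 * l * m := by
    rw [hX3]
    linear_combination hR
  have E3 : X1 * X2 * X3 = m ^ 2 := by
    rw [hX3]
    rw [h1] at e1
    linear_combination X1 * hR - e1
  obtain ⟨hY30, hz⟩ := cza_core (d := d) hm0 hY1 hY2 h1 h2 h3 E1 E2 E3 hN0
  refine ⟨hY30, ?_, ?_⟩
  · rw [hz]
    have : 2 * d ^ 2 * l / (m ^ 2 - d ^ 2 * l ^ 2) = -(2 * d ^ 2 * α * β / (1 - d ^ 2 * α ^ 2)) := by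
      rw [hN', ← neg_div, div_eq_div_iff (mul_ne_zero (pow_ne_zero 2 hm0) hN) hN]
      have hx : l = -(α * β) * m ^ 2 := by
        linear_combination hα + α * m * hmb
      linear_combination 2 * d ^ 2 * (1 - d ^ 2 * α ^ 2) * hx
    rw [this]
    ring
  · have h4 : α * X3 - β * Y3 = 1 := by
      rw [h3]
      linear_combination X3 * hlb + hmb
    rw [div_eq_iff hY30, sub_mul, mul_assoc, div_mul_cancel₀ _ hY30]
    exact h4.symm

end Core

theorem cza : CzaStmt := by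
  intro F _ d h2 hd P Q hY1 hY2 hPQ D α β hD hD0 hα hβ hN
  have e1 := eqn (P := P)
  have e2 := eqn (P := Q)
  have hP := ne_zero_of_cY hY1
  have hQ := ne_zero_of_cY hY2
  have w1 := cza_w hY1 e1
  have w2 := cza_w hY2 e2
  have hαD : α * D = cz P ^ 2 + cz P * cz Q + cz Q ^ 2 - d ^ 2 * (1 / cY P) ^ 2 := by
    rw [hα]
    exact div_mul_cancel₀ _ hD0
  have hzP : cz P = cX P / cY P := rfl
  have hzQ : cz Q = cX Q / cY Q := rfl
  rw [← hzP] at w1
  rw [← hzQ] at w2
  have hw : 1 / cY P - 1 / cY Q = α * (cz P - cz Q) := by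
    apply mul_right_cancel₀ hD0
    have e3 : α * (cz P - cz Q) * D = (cz P - cz Q) * (α * D) := by ring
    rw [e3, hαD, hD]
    generalize cz P = z1 at *
    generalize cz Q = z2 at *
    generalize 1 / cY P = v1 at *
    generalize 1 / cY Q = v2 at *
    linear_combination w1 - w2
  have L1 : α * cX P + β * cY P = 1 := by
    rw [hβ, hzP]
    field_simp
    ring
  have L2 : α * cX Q + β * cY Q = 1 := by
    have h3 : β = 1 / cY Q - α * cz Q := by
      rw [hβ]
      linear_combination hw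
    rw [h3, hzQ]
    field_simp
    ring
  by_cases hx : cX P = cX Q
  · rcases eq_or_neg hP hQ hx with h | h
    · subst h
      obtain ⟨-, hX3, hY3⟩ := add_self h2 hY1
      have hβD : β * D = -2 * (1 / cY P) := by
        have h3 : β * D = 1 / cY P * D - cz P * (α * D) := by
          rw [hβ]
          ring
        rw [h3, hαD, hD]
        generalize cz P = z1 at *
        generalize 1 / cY P = v1 at *
        linear_combination 3 * w1
      have hβ0 : β ≠ 0 := by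
        intro h0
        rw [h0, zero_mul] at hβD
        have h4 : 2 * (1 / cY P) = 0 := by linear_combination hβD
        exact mul_ne_zero h2 (one_div_ne_zero hY1) h4
      have hl : (3 * cX P ^ 2 - d ^ 2) / (2 * cY P) = -α / β := by
        rw [div_eq_div_iff (mul_ne_zero h2 hY1) hβ0]
        apply mul_right_cancel₀ hD0
        have h3 : (3 * cX P ^ 2 - d ^ 2) * β * D = (3 * cX P ^ 2 - d ^ 2) * (β * D) := by ring
        have h4 : -α * (2 * cY P) * D = -(2 * cY P) * (α * D) := by ring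
        rw [h3, h4, hβD, hαD, hzP]
        field_simp
        ring
      apply cza_alg hY1 hY2 e1 hβ0 L1 L2 hN hl
      · have h5 : (3 * cX P ^ 2 - d ^ 2) = (3 * cX P ^ 2 - d ^ 2) / (2 * cY P) * (2 * cY P) :=
          (div_mul_cancel₀ _ (mul_ne_zero h2 hY1)).symm
        have hlb : (3 * cX P ^ 2 - d ^ 2) / (2 * cY P) * β = -α := by
          rw [hl]
          exact div_mul_cancel₀ _ hβ0
        generalize (3 * cX P ^ 2 - d ^ 2) / (2 * cY P) = l at *
        have h6 : cY P = l * cX P + 1 / β := by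
          have hb : (1 / β) * β = 1 := one_div_mul_cancel hβ0
          apply mul_right_cancel₀ hβ0
          linear_combination L1 - cX P * hlb - hb
        linear_combination -h5 - 2 * l * h6
      · rw [hX3]
        ring
      · exact hY3
    · exfalso
      apply hPQ
      rw [h]
      exact neg_add_cancel Q
  · obtain ⟨-, hX3, hY3⟩ := add_ne hP hQ hx
    have hx' : cX P - cX Q ≠ 0 := sub_ne_zero.mpr hx
    have hβ0 : β ≠ 0 := by
      intro h0
      rw [h0, zero_mul, add_zero] at L1 L2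
      have h3 : α * (cX P - cX Q) = 0 := by linear_combination L1 - L2
      rcases mul_eq_zero.mp h3 with h4 | h4
      · rw [h4, zero_mul] at L1
        exact zero_ne_one L1
      · exact hx' h4
    have hl : (cY P - cY Q) / (cX P - cX Q) = -α / β := by
      rw [div_eq_div_iff hx' hβ0]
      linear_combination L1 - L2
    apply cza_alg hY1 hY2 e1 hβ0 L1 L2 hN hl
    · have hlb : (cY P - cY Q) / (cX P - cX Q) * β = -α := by
        rw [hl]
        exact div_mul_cancel₀ _ hβ0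
      have hl2 : (cY P - cY Q) / (cX P - cX Q) * (cX P - cX Q) = cY P - cY Q :=
        div_mul_cancel₀ _ hx'
      generalize (cY P - cY Q) / (cX P - cX Q) = l at *
      have hb : (1 / β) * β = 1 := one_div_mul_cancel hβ0
      have h6 : cY P = l * cX P + 1 / β := by
        apply mul_right_cancel₀ hβ0
        linear_combination L1 - cX P * hlb - hb
      have h7 : cY Q = l * cX Q + 1 / β := by
        apply mul_right_cancel₀ hβ0
        linear_combination L2 - cX Q * hlb - hb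
      rw [h6] at e1
      rw [h7] at e2
      apply mul_right_cancel₀ hx'
      linear_combination e1 - e2
    · exact hX3
    · exact hY3

end Pool.Agent.WAP.H1
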